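import Pool.Agent.R963.Korn.Stm
import Pool.Agent.R963.Korn.Opt
import Pool.Agent.R963.Korn.Lin
import Pool.Agent.R963.Korn.KO2
import Pool.Agent.R963.Korn.KO4
import Pool.Agent.R963.Korn.Div
import Pool.Agent.R963.Korn.Sig
import Pool.Agent.R963.Korn.Fischer
import Pool.Agent.R963.Korn.Rigid
import Pool.Agent.R963.Korn.Eigen
import Pool.Agent.R963.Korn.EL
import Pool.Agent.R963.Korn.Upper
import Pool.Agent.R963.Korn.K11
import Pool.Agent.R963.Korn.Lower
import Pool.Agent.R963.Korn.Approx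
import Pool.Agent.R963.Korn.Smooth
import Pool.Agent.R963.Korn.Poly

open MeasureTheory Matrix

namespace Pool.Agent.Results.MP_67a05c_an.KornBall

open Pool.Agent.R963.Korn

noncomputable section

set_option maxHeartbeats 400000

/-- The gradient matrix of a vector field `u` on `ℝⁿ`: the entry in row `j` and column `i`
is the partial derivative `∂_i u_j (x)`. -/
def grad {n : ℕ} (u : EuclideanSpace ℝ (Fin n) → EuclideanSpace ℝ (Fin n))
    (x : EuclideanSpace ℝ (Fin n)) : Matrix (Fin n) (Fin n) ℝ :=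
  Matrix.of fun j i => (fderiv ℝ u x (EuclideanSpace.single i 1)) j

/-- The square of the Frobenius norm of a matrix. -/
def frobSq {n : ℕ} (M : Matrix (Fin n) (Fin n) ℝ) : ℝ := ∑ i, ∑ j, M i j ^ 2

/-- `u` is of class `C^k` on an open set containing the closed unit ball and satisfies the side
condition `∫ (∇u - ∇uᵀ) dx = 0` on the unit ball (entry by entry). -/
def Admissible (k : WithTop ℕ∞) {n : ℕ}
    (u : EuclideanSpace ℝ (Fin n) → EuclideanSpace ℝ (Fin n)) : Prop :=
  (∃ U : Set (EuclideanSpace ℝ (Fin n)), IsOpen U ∧ Metric.closedBall 0 1 ⊆ U ∧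
    ContDiffOn ℝ k u U) ∧
  ∀ i j : Fin n, ∫ x in Metric.ball (0 : EuclideanSpace ℝ (Fin n)) 1,
    (grad u x - (grad u x)ᵀ) i j = 0

/-- `K` is a valid constant in Korn's inequality in the second case on the unit ball of `ℝⁿ`,
for all admissible fields of class `C^k`. -/
def IsKornBound (k : WithTop ℕ∞) (n : ℕ) (K : ℝ) : Prop :=
  ∀ u : EuclideanSpace ℝ (Fin n) → EuclideanSpace ℝ (Fin n), Admissible k u →
    ∫ x in Metric.ball (0 : EuclideanSpace ℝ (Fin n)) 1, frobSq (grad u x) ≤
      K * ∫ x in Metric.ball (0 : EuclideanSpace ℝ (Fin n)) 1,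
        frobSq ((1 / 2 : ℝ) • (grad u x + (grad u x)ᵀ))

/-- The value `2(l+1)(2l+n-2)/(l²+l+n-2)` belonging to the degree `l`. -/
def level (n l : ℕ) : ℝ :=
  2 * ((l : ℝ) + 1) * (2 * (l : ℝ) + n - 2) / ((l : ℝ) ^ 2 + l + n - 2)

/-- The optimal degree: the least integer `l ≥ (1+√(1+4n))/2`, that is the least `l` with
`l(l-1) ≥ n`. -/
def optDeg (n : ℕ) : ℕ := ⌈(1 + √(1 + 4 * (n : ℝ))) / 2⌉₊

/-- The Korn constant of the `n`-dimensional ball. -/
def kornBall (n : ℕ) : ℝ := level n (optDeg n)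

lemma grad_apply {n : ℕ} (u : EuclideanSpace ℝ (Fin n) → EuclideanSpace ℝ (Fin n))
    (x : EuclideanSpace ℝ (Fin n)) (i j : Fin n) : grad u x j i = G u x i j := rfl

lemma frobSq_grad {n : ℕ} (u : EuclideanSpace ℝ (Fin n) → EuclideanSpace ℝ (Fin n))
    (x : EuclideanSpace ℝ (Fin n)) : frobSq (grad u x) = ∑ i, ∑ j, (G u x i j) ^ 2 := by
  unfold frobSq
  rw [Finset.sum_comm]
  rfl

lemma frobSq_sym {n : ℕ} (u : EuclideanSpace ℝ (Fin n) → EuclideanSpace ℝ (Fin n))
    (x : EuclideanSpace ℝ (Fin n)) : frobSq ((1 / 2 : ℝ) • (grad u x + (grad u x)ᵀ)) =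
      ∑ i, ∑ j, ((G u x i j + G u x j i) / 2) ^ 2 := by
  unfold frobSq
  refine Finset.sum_congr rfl fun i _ => Finset.sum_congr rfl fun j _ => ?_
  simp only [Matrix.smul_apply, Matrix.add_apply, Matrix.transpose_apply, grad_apply, smul_eq_mul]
  ring

lemma int_frob {n : ℕ} (u : EuclideanSpace ℝ (Fin n) → EuclideanSpace ℝ (Fin n)) :
    ∫ x in Metric.ball (0 : EuclideanSpace ℝ (Fin n)) 1, frobSq (grad u x) = Nint u := by
  unfold Nint
  exact integral_congr_ae (Filter.Eventually.of_forall fun x => frobSq_grad u x)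

lemma int_sym {n : ℕ} (u : EuclideanSpace ℝ (Fin n) → EuclideanSpace ℝ (Fin n)) :
    ∫ x in Metric.ball (0 : EuclideanSpace ℝ (Fin n)) 1,
        frobSq ((1 / 2 : ℝ) • (grad u x + (grad u x)ᵀ)) = Dint u := by
  unfold Dint
  exact integral_congr_ae (Filter.Eventually.of_forall fun x => frobSq_sym u x)

lemma side_iff {n : ℕ} (u : EuclideanSpace ℝ (Fin n) → EuclideanSpace ℝ (Fin n)) :
    (∀ i j : Fin n, ∫ x in Metric.ball (0 : EuclideanSpace ℝ (Fin n)) 1,
      (grad u x - (grad u x)ᵀ) i j = 0) ↔ SideInt u := by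
  unfold SideInt
  constructor
  · intro h i j
    have := h j i
    simpa only [Matrix.sub_apply, Matrix.transpose_apply, grad_apply] using this
  · intro h i j
    have := h j i
    simpa only [Matrix.sub_apply, Matrix.transpose_apply, grad_apply] using this

/-- replace a field smooth near the closed ball by a globally smooth one -/
lemma globalize {n : ℕ} (k : ℕ∞) (u : E n → E n) (U : Set (E n)) (hU : IsOpen U)
    (hb : Metric.closedBall 0 1 ⊆ U) (hu : ContDiffOn ℝ k u U) :
    ∃ v : E n → E n, ContDiff ℝ k v ∧ ∀ x ∈ Metric.ball (0 : E n) 1, v =ᶠ[nhds x] u := by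
  obtain ⟨δ, hδ, hδU⟩ := (isCompact_closedBall (0 : E n) 1).exists_thickening_subset_open hU hb
  have hsub : Metric.ball (0 : E n) (1 + δ) ⊆ U := by
    intro x hx
    apply hδU
    rw [Metric.mem_thickening_iff]
    have hx' : ‖x‖ < 1 + δ := by simpa using hx
    by_cases h1 : ‖x‖ ≤ 1
    · exact ⟨x, by simpa using h1, by simpa using hδ⟩
    · push Not at h1
      refine ⟨(‖x‖)⁻¹ • x, ?_, ?_⟩
      · simp only [Metric.mem_closedBall, dist_zero_right, norm_smul, norm_inv, norm_norm]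
        rw [inv_mul_cancel₀ (by linarith)]
      · rw [dist_eq_norm]
        have : x - (‖x‖)⁻¹ • x = (1 - (‖x‖)⁻¹) • x := by rw [sub_smul, one_smul]
        rw [this, norm_smul, Real.norm_eq_abs, abs_of_nonneg, sub_mul, inv_mul_cancel₀ (by linarith)]
        · linarith
        · rw [sub_nonneg]
          exact inv_le_one_of_one_le₀ h1.le
  let f : ContDiffBump (0 : E n) := ⟨1 + δ / 4, 1 + δ / 2, by linarith, by linarith⟩
  refine ⟨fun x => f x • u x, ?_, ?_⟩
  · rw [contDiff_iff_contDiffAt]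
    intro x
    by_cases hx : x ∈ Metric.ball (0 : E n) (1 + δ)
    · exact (f.contDiff.contDiffAt).smul (hu.contDiffAt (hU.mem_nhds (hsub hx)))
    · have hx' : 1 + δ ≤ ‖x‖ := by simpa using hx
      have hev : (fun x => f x • u x) =ᶠ[nhds x] fun _ => 0 := by
        have hopen : IsOpen {y : E n | 1 + δ / 2 < ‖y‖} := isOpen_lt continuous_const continuous_norm
        filter_upwards [hopen.mem_nhds (show 1 + δ / 2 < ‖x‖ by linarith)] with y hy
        have : f y = 0 := by
          apply f.zero_of_le_dist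
          simp only [dist_zero_right]
          exact le_of_lt hy
        simp [this]
      exact contDiffAt_const.congr_of_eventuallyEq hev
  · intro x hx
    filter_upwards [Metric.isOpen_ball.mem_nhds hx] with y hy
    have : f y = 1 := by
      apply f.one_of_mem_closedBall
      simp only [Metric.mem_closedBall, dist_zero_right]
      have : ‖y‖ < 1 := by simpa using hy
      show ‖y‖ ≤ 1 + δ / 4
      linarith
    simp [this]

lemma G_congr {n : ℕ} {u v : E n → E n} {x : E n} (h : v =ᶠ[nhds x] u) (i j : Fin n) :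
    G v x i j = G u x i j := by
  unfold G
  rw [h.fderiv_eq]

lemma optDeg_spec {n : ℕ} (hn : 2 ≤ n) :
    n ≤ optDeg n * (optDeg n - 1) ∧ ∀ m : ℕ, n ≤ m * (m - 1) → optDeg n ≤ m := by
  have hn' : (2 : ℝ) ≤ n := by exact_mod_cast hn
  set s := √(1 + 4 * (n : ℝ)) with hs
  have hs2 : s ^ 2 = 1 + 4 * (n : ℝ) := Real.sq_sqrt (by linarith)
  have hs0 : 0 ≤ s := Real.sqrt_nonneg _
  have hs1 : 1 ≤ s := by nlinarith
  constructor
  · have h1 : (1 + s) / 2 ≤ (optDeg n : ℝ) := Nat.le_ceil _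
    have h2 : 1 ≤ optDeg n := by
      have : (1 : ℝ) ≤ optDeg n := by linarith
      exact_mod_cast this
    have h3 : (n : ℝ) ≤ ((optDeg n * (optDeg n - 1) : ℕ) : ℝ) := by
      rw [Nat.cast_mul, Nat.cast_sub h2, Nat.cast_one]
      have h4 : (s - 1) / 2 ≤ (optDeg n : ℝ) - 1 := by linarith
      have h5 : (1 + s) / 2 * ((s - 1) / 2) ≤ (optDeg n : ℝ) * ((optDeg n : ℝ) - 1) :=
        mul_le_mul h1 h4 (by linarith) (by linarith)
      nlinarith
    exact_mod_cast h3
  · intro m hm
    have hm1 : 1 ≤ m := by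
      by_contra hcon
      have : m = 0 := by omega
      subst this
      simp at hm
      omega
    unfold optDeg
    rw [Nat.ceil_le]
    have h3 : (n : ℝ) ≤ (m : ℝ) * ((m : ℝ) - 1) := by
      have : (n : ℝ) ≤ ((m * (m - 1) : ℕ) : ℝ) := by exact_mod_cast hm
      rwa [Nat.cast_mul, Nat.cast_sub hm1, Nat.cast_one] at this
    have hm1' : (1 : ℝ) ≤ m := by exact_mod_cast hm1
    have : s ≤ 2 * (m : ℝ) - 1 := by
      apply Real.sqrt_le_iff.mpr
      constructor
      · linarith
      · nlinarith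
    linarith

lemma optDeg_pos {n : ℕ} (hn : 2 ≤ n) : 1 ≤ optDeg n := by
  have := (optDeg_spec hn).1
  by_contra hcon
  have h0 : optDeg n = 0 := by omega
  rw [h0] at this
  omega

/-- **The Korn constant (second case) of the ball.** For every `n ≥ 2`, the least constant in
Korn's inequality in the second case on the unit ball of `ℝⁿ`, for fields of any class `C^k` with
`1 ≤ k ≤ ω`, is `kornBall n = 2(l+1)(2l+n-2)/(l²+l+n-2)` with `l = ⌈(1+√(1+4n))/2⌉`. It is attained
by a real-analytic field with nonzero strain, it is the maximum over all `l ≥ 1` of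
`2(l+1)(2l+n-2)/(l²+l+n-2)`, and the optimal `l` is the least natural number with `n ≤ l(l-1)`. -/
theorem result (n : ℕ) (hn : 2 ≤ n) (k : WithTop ℕ∞) (hk : 1 ≤ k) :
    IsLeast {K : ℝ | IsKornBound k n K} (kornBall n) ∧
    (∃ u : EuclideanSpace ℝ (Fin n) → EuclideanSpace ℝ (Fin n), ContDiff ℝ ⊤ u ∧
      Admissible k u ∧
      0 < ∫ x in Metric.ball (0 : EuclideanSpace ℝ (Fin n)) 1,
        frobSq ((1 / 2 : ℝ) • (grad u x + (grad u x)ᵀ)) ∧
      ∫ x in Metric.ball (0 : EuclideanSpace ℝ (Fin n)) 1, frobSq (grad u x) =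
      kornBall n * ∫ x in Metric.ball (0 : EuclideanSpace ℝ (Fin n)) 1,
        frobSq ((1 / 2 : ℝ) • (grad u x + (grad u x)ᵀ))) ∧
    (∀ l : ℕ, 1 ≤ l → level n l ≤ kornBall n) ∧
    (n ≤ optDeg n * (optDeg n - 1) ∧ ∀ m : ℕ, n ≤ m * (m - 1) → optDeg n ≤ m) := by
  have hsig : S_sig := t_sig t_lin t_pos t_zero t_div t_conc
  have hup : S_upper := t_upper t_lin t_pos t_zero t_eigen
    (t_el t_lin t_pos t_zero t_div hsig (t_fischer hsig)) (t_rigid hsig)
  have hsm : S_smooth := t_smooth t_lin t_pos t_approx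
  have hlow : S_lower := t_lower t_lin t_pos t_zero t_div hsig t_harm
  have hpoly : S_poly := t_poly
  obtain ⟨ho1, ho2⟩ := optDeg_spec hn
  obtain ⟨hmax, h4⟩ := t_opt n (optDeg n) hn ho1 ho2
  have hKl : Kl n (optDeg n) = kornBall n := rfl
  -- the extremal field
  have hex : ∃ u : EuclideanSpace ℝ (Fin n) → EuclideanSpace ℝ (Fin n), ContDiff ℝ ⊤ u ∧
      Admissible k u ∧
      0 < ∫ x in Metric.ball (0 : EuclideanSpace ℝ (Fin n)) 1,
        frobSq ((1 / 2 : ℝ) • (grad u x + (grad u x)ᵀ)) ∧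
      ∫ x in Metric.ball (0 : EuclideanSpace ℝ (Fin n)) 1, frobSq (grad u x) =
      kornBall n * ∫ x in Metric.ball (0 : EuclideanSpace ℝ (Fin n)) 1,
        frobSq ((1 / 2 : ℝ) • (grad u x + (grad u x)ᵀ)) := by
    obtain ⟨p, hs, hpos, heq⟩ := hlow n (optDeg n) hn (optDeg_pos hn)
    obtain ⟨u, hu, _, hN, hD, hS⟩ := hpoly n p
    refine ⟨u, hu, ⟨⟨Set.univ, isOpen_univ, Set.subset_univ _, ?_⟩, ?_⟩, ?_, ?_⟩
    · exact (hu.of_le le_top).contDiffOn
    · exact (side_iff u).mpr (hS hs)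
    · rw [int_sym, hD]; exact hpos
    · rw [int_sym, int_frob, hN, hD, heq, hKl]
  refine ⟨⟨?_, ?_⟩, hex, ?_, ho1, ho2⟩
  · -- upper bound
    intro u hu
    obtain ⟨⟨U, hUo, hbU, hcu⟩, hside⟩ := hu
    rw [int_frob, int_sym]
    obtain ⟨v, hv, hvu⟩ := globalize (1 : ℕ∞) u U hUo hbU (by exact_mod_cast hcu.of_le hk)
    have hG : ∀ x ∈ Metric.ball (0 : E n) 1, ∀ i j, G v x i j = G u x i j :=
      fun x hx i j => G_congr (hvu x hx) i j
    have hN : Nint v = Nint u := by
      unfold Nint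
      refine setIntegral_congr_fun measurableSet_ball fun x hx => ?_
      simp only [hG x hx]
    have hD : Dint v = Dint u := by
      unfold Dint
      refine setIntegral_congr_fun measurableSet_ball fun x hx => ?_
      simp only [hG x hx]
    have hS : SideInt v := by
      intro i j
      rw [← (side_iff u).mp hside i j]
      refine setIntegral_congr_fun measurableSet_ball fun x hx => ?_
      simp only [hG x hx]
    have hup' := hup n (kornBall n) hn (hKl ▸ h4) (fun l hl => hKl ▸ hmax l hl)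
    have := hsm n (kornBall n) hn (by linarith [hKl ▸ h4]) hup' v (by exact_mod_cast hv) hS
    rwa [hN, hD] at this
  · -- lower bound
    intro K hK
    obtain ⟨u, _, hadm, hpos, heq⟩ := hex
    have := hK u hadm
    rw [heq] at this
    exact le_of_mul_le_mul_right this hpos
  · intro l hl
    exact hKl ▸ hmax l hl

end

end Pool.Agent.Results.MP_67a05c_an.KornBall
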